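import Pool.Agent.H126V.FD
import Pool.Agent.H126V.FE

/-!
# Residues of Frobenius averages for fibrations in products of twisted curves

`K` is any number field, the base is affine space with coordinates `t_σ` (an open part of the base
`𝒴 = ℙ^m`, `m = #σ`), and `C₁, …, C_r` are hyperelliptic curves `y² = f_i(x)` over `K(t_σ)`, with
`f_i ∈ 𝒪_K[t_σ][x]` of odd degree `2 g_i + 1 ≥ 3` in `x` (all elliptic curves over `K(t_σ)` are of this
kind).  For `d = (d₁, …, d_r)` in `𝒪_K` the generic fibre `X_d = ∏ C_{i, d_i}` is the product of the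
quadratic twists `d_i y² = f_i(x)`.  By the Künneth formula `H²` of a smooth fibre is the sum of `r`
lines and of the spaces `H¹ ⊗ H¹` of the pairs `i < j`.  The rank of `NS(X_d / K(t_σ))` is the sum of
`r` and of the ranks of the groups of homomorphisms between the Jacobians of `C_{i, d_i}` and
`C_{j, d_j}`; it is `r` unless one of the products `d_i d_j` lies in one of finitely many square
classes of `K`.
-/

set_option autoImplicit false

namespace Pool.Agent.Results.MP_6090f9_nt.TwistFamilies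

open NumberField IsDedekindDomain Filter Topology Polynomial

/-- The value of `N ∈ 𝒪_K[t_σ]` at a point `t` with coordinates in the residue field of `v`. -/
noncomputable def value {K : Type} [Field K] [NumberField K] {σ : Type}
    (v : HeightOneSpectrum (𝓞 K)) (t : σ → 𝓞 K ⧸ v.asIdeal) (N : MvPolynomial σ (𝓞 K)) :
    𝓞 K ⧸ v.asIdeal :=
  MvPolynomial.eval₂Hom (Ideal.Quotient.mk v.asIdeal) t N

/-- The polynomial `f(t, x)` over the residue field of `v`, for a point `t` of the base. -/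
noncomputable def fibre {K : Type} [Field K] [NumberField K] {σ : Type}
    (v : HeightOneSpectrum (𝓞 K)) (t : σ → 𝓞 K ⧸ v.asIdeal) (f : (MvPolynomial σ (𝓞 K))[X]) :
    (𝓞 K ⧸ v.asIdeal)[X] :=
  f.map (MvPolynomial.eval₂Hom (Ideal.Quotient.mk v.asIdeal) t)

/-- Trace of the Frobenius on `H¹` of the smooth projective curve `d y² = f(t, x)` over the residue
field of `v`: it is `q + 1` minus the number of points, and there is one point at infinity. -/
noncomputable def traceH1 {K : Type} [Field K] [NumberField K] {σ : Type}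
    (v : HeightOneSpectrum (𝓞 K)) (t : σ → 𝓞 K ⧸ v.asIdeal) (f : (MvPolynomial σ (𝓞 K))[X])
    (d : 𝓞 K) : ℤ :=
  (Ideal.absNorm v.asIdeal : ℤ) - Nat.card {P : (𝓞 K ⧸ v.asIdeal) × (𝓞 K ⧸ v.asIdeal) //
    Ideal.Quotient.mk v.asIdeal d * P.2 ^ 2 = (fibre v t f).eval P.1}

/-- The pairs `i < j` of indices. -/
def pairs (r : ℕ) : Finset (Fin r × Fin r) := Finset.univ.filter fun p => p.1 < p.2

open Classical in
/-- The trace of the Frobenius on `H²` of the fibre over `t` of the product of the fibrations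
`d_i y² = f_i(t, x)`, by the Künneth formula.  For the points `t` with `N(t) = 0`, where the fibre may
be singular, only the part `r q` is taken. -/
noncomputable def traceH2 {K : Type} [Field K] [NumberField K] {σ : Type} {r : ℕ}
    (v : HeightOneSpectrum (𝓞 K)) (t : σ → 𝓞 K ⧸ v.asIdeal)
    (f : Fin r → (MvPolynomial σ (𝓞 K))[X]) (d : Fin r → 𝓞 K) (N : MvPolynomial σ (𝓞 K)) : ℤ :=
  r * (Ideal.absNorm v.asIdeal : ℤ) + if value v t N = 0 then 0 else
    ∑ p ∈ pairs r, traceH1 v t (f p.1) (d p.1) * traceH1 v t (f p.2) (d p.2)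

/-- The average `𝔅_v = q^{-m} ∑_t b_v(fibre over t)`, `m = #σ`. -/
noncomputable def fibreAverage {K : Type} [Field K] [NumberField K] {σ : Type} [Fintype σ] {r : ℕ}
    (f : Fin r → (MvPolynomial σ (𝓞 K))[X]) (d : Fin r → 𝓞 K) (N : MvPolynomial σ (𝓞 K))
    (v : HeightOneSpectrum (𝓞 K)) : ℝ :=
  (∑ᶠ t : σ → 𝓞 K ⧸ v.asIdeal, (traceH2 v t f d N : ℝ)) /
    (Ideal.absNorm v.asIdeal : ℝ) ^ Fintype.card σ

open Classical in
/-- The series `F(s) = ∑_{v ∉ R} 𝔅_v log(q_v) q_v^{-s}` of the question, for real `s > 2`. -/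
noncomputable def F {K : Type} [Field K] [NumberField K] {σ : Type} [Fintype σ] {r : ℕ}
    (f : Fin r → (MvPolynomial σ (𝓞 K))[X]) (d : Fin r → 𝓞 K) (N : MvPolynomial σ (𝓞 K))
    (R : Finset (HeightOneSpectrum (𝓞 K))) (s : ℝ) : ℝ :=
  ∑' v : HeightOneSpectrum (𝓞 K), if v ∈ R then 0 else
    fibreAverage f d N v * Real.log (Ideal.absNorm v.asIdeal : ℝ) *
      (Ideal.absNorm v.asIdeal : ℝ) ^ (-s)

/-- **Residues of the Frobenius averages in families of twisted fibrations.**  Let `κ` be a set of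
indices `k`, finite or infinite, each with a vector `d k` of nonzero elements of `𝒪_K`, such that for
`k ≠ l` and all `i < j` the number `d_i(k) d_j(k) d_i(l) d_j(l)` is not a square in `K`.  Let
`B = ∑_{i < j} 2 g_i · 2 g_j`, let `N ≠ 0` be a polynomial in `𝒪_K[t_σ]` such that the fibres over the
points with `N ≠ 0` are smooth, and let `R k` be a finite set of primes which contains the divisors
of all `2 d_i(k)`.

1. For every finite `T ⊆ κ` and `η > 0`, for all `s > 2` close to `2`,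
`∑_{k ∈ T} ((s - 2) F_k(s) - r)² ≤ B² + η`.

2. For every finite `T ⊆ κ` and `δ > 0`, for all `s > 2` close to `2`, at most `B² / δ²` of the
numbers `(s - 2) F_k(s)`, `k ∈ T`, differ from `r` by `δ` or more.

3. If the residues `ρ k`, the limits of `(s - 2) F_k(s)` for `s → 2`, `s > 2`, exist for all
`k ∈ κ`, then `∑_{k ∈ κ} (ρ_k - r)² ≤ B²`. -/
theorem result (K : Type) [Field K] [NumberField K] (σ : Type) [Fintype σ] (r : ℕ)
    (f : Fin r → (MvPolynomial σ (𝓞 K))[X])
    (hodd : ∀ i, Odd (f i).natDegree) (h3 : ∀ i, 3 ≤ (f i).natDegree)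
    (N : MvPolynomial σ (𝓞 K)) (_hN0 : N ≠ 0)
    (hN : ∀ v : HeightOneSpectrum (𝓞 K), (2 : 𝓞 K) ∉ v.asIdeal → ∀ t : σ → 𝓞 K ⧸ v.asIdeal,
      value v t N ≠ 0 → ∀ i, value v t (f i).leadingCoeff ≠ 0 ∧ (fibre v t (f i)).Separable)
    (κ : Type) (d : κ → Fin r → 𝓞 K) (hd0 : ∀ k i, d k i ≠ 0)
    (hsep : ∀ k l, k ≠ l → ∀ i j, i < j →
      ¬ IsSquare ((d k i * d k j * d l i * d l j : 𝓞 K) : K))
    (R : κ → Finset (HeightOneSpectrum (𝓞 K)))
    (hR : ∀ k, ∀ v, v ∉ R k → (2 : 𝓞 K) ∉ v.asIdeal ∧ ∀ i, d k i ∉ v.asIdeal)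
    (B : ℕ) (hB : B = ∑ p ∈ pairs r, ((f p.1).natDegree - 1) * ((f p.2).natDegree - 1)) :
    (∀ (T : Finset κ) (η : ℝ), 0 < η → ∀ᶠ s : ℝ in 𝓝[>] 2,
      ∑ k ∈ T, ((s - 2) * F f (d k) N (R k) s - r) ^ 2 ≤ (B : ℝ) ^ 2 + η) ∧
    (∀ (T : Finset κ) (δ : ℝ), 0 < δ → ∀ᶠ s : ℝ in 𝓝[>] 2,
      ({k : κ | k ∈ T ∧ δ ≤ |(s - 2) * F f (d k) N (R k) s - r|}.ncard : ℝ) ≤
        (B : ℝ) ^ 2 / δ ^ 2) ∧
    (∀ ρ : κ → ℝ, (∀ k, Tendsto (fun s : ℝ => (s - 2) * F f (d k) N (R k) s) (𝓝[>] 2)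
        (𝓝 (ρ k))) →
      Summable (fun k => (ρ k - r) ^ 2) ∧ ∑' k, (ρ k - r) ^ 2 ≤ (B : ℝ) ^ 2) := by
  classical
  have hF : ∀ k s, F f (d k) N (R k) s = Pool.Agent.H126V.FC.DS (R k)
      (fun v => Pool.Agent.H126V.FD.BB f (d k) N v / Pool.Agent.H921R2.TatePole.nm v) (s - 1) := by
    intro k s
    unfold F Pool.Agent.H126V.FC.DS Pool.Agent.H126V.FC.term
    refine tsum_congr fun v => ?_
    by_cases h : v ∈ R k
    · rw [if_pos h, if_pos h]
    · rw [if_neg h, if_neg h]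
      have hq : (0 : ℝ) < Pool.Agent.H921R2.TatePole.nm v := Pool.Agent.H126T.nm_pos' v
      have e1 : -(s - 1) = -s + 1 := by ring
      rw [e1, Real.rpow_add hq, Real.rpow_one]
      have e2 : fibreAverage f (d k) N v = Pool.Agent.H126V.FD.BB f (d k) N v := rfl
      have e3 : (Ideal.absNorm v.asIdeal : ℝ) = Pool.Agent.H921R2.TatePole.nm v := rfl
      rw [e2, e3]
      field_simp
  have hNr : (∑ p ∈ Pool.Agent.H126T.pairs r, Pool.Agent.H126V.FD.bb f p) = (B : ℝ) := by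
    rw [hB]
    push_cast
    refine Finset.sum_congr rfl fun p _ => ?_
    unfold Pool.Agent.H126V.FD.bb
    have h1 := h3 p.1
    have h2 := h3 p.2
    rw [Nat.cast_sub (by omega), Nat.cast_sub (by omega)]
    push_cast
    ring
  have hshift : Tendsto (fun s : ℝ => s - 1) (𝓝[>] 2) (𝓝[>] 1) := by
    rw [tendsto_nhdsWithin_iff]
    constructor
    · have h : Tendsto (fun s : ℝ => s - 1) (𝓝 2) (𝓝 (2 - 1)) := tendsto_id.sub_const 1
      have e : (2 : ℝ) - 1 = 1 := by norm_num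
      rw [e] at h
      exact h.mono_left nhdsWithin_le_nhds
    · filter_upwards [self_mem_nhdsWithin] with s hs
      have hs' : (2 : ℝ) < s := hs
      show (1 : ℝ) < s - 1
      linarith
  have h1 : ∀ (T : Finset κ) (η : ℝ), 0 < η → ∀ᶠ s : ℝ in 𝓝[>] 2,
      ∑ k ∈ T, ((s - 2) * F f (d k) N (R k) s - r) ^ 2 ≤ (B : ℝ) ^ 2 + η := by
    intro T η hη
    have hm := Pool.Agent.H126V.FD.main f hodd h3 N
      (fun v h2 t ht i => (hN v h2 t ht i).1) d hd0 hsep R
      (fun k v hv i => ⟨(hR k v hv).1, (hR k v hv).2 i⟩) T η hη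
    filter_upwards [hshift.eventually hm] with s hs
    rw [hNr] at hs
    have e : s - 1 - 1 = s - 2 := by ring
    rw [e] at hs
    simp only [hF]
    exact hs
  refine ⟨h1, fun T δ hδ => Pool.Agent.H126V.FE.count_of_sum T _
    (fun s k => (s - 2) * F f (d k) N (R k) s - r) (h1 T) hδ, fun ρ hρ => ?_⟩
  have hle : ∀ T : Finset κ, ∑ k ∈ T, (ρ k - r) ^ 2 ≤ (B : ℝ) ^ 2 := by
    intro T
    refine le_of_forall_pos_le_add fun η hη => ?_
    exact le_of_tendsto (tendsto_finsetSum T fun k _ => ((hρ k).sub_const _).pow 2) (h1 T η hη)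
  have hs : Summable (fun k => (ρ k - r) ^ 2) := summable_of_sum_le (fun k => sq_nonneg _) hle
  exact ⟨hs, hs.tsum_le_of_sum_le hle⟩

end Pool.Agent.Results.MP_6090f9_nt.TwistFamilies
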